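import Pool.Agent.helper18.KU.Spec

set_option autoImplicit false

namespace Pool.Agent.KU

open Finset

noncomputable section

theorem SPC_f {V : Type} [DecidableEq V] (X : V → ℕ) (w : V → V → ℕ) (T U : Finset V) :
    f (fun v => X v + dg w T v) w U = f X w U - ∑ v ∈ U, (dg w T v : ℤ) := by
  unfold f
  have h : (∑ v ∈ U, (((X v + dg w T v : ℕ)) : ℤ)) = ∑ v ∈ U, (X v : ℤ) + ∑ v ∈ U, (dg w T v : ℤ) := by
    rw [← Finset.sum_add_distrib]
    apply Finset.sum_congr rfl
    intro v _
    push_cast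
    ring
  rw [h]
  ring

theorem SPC (hFNS : FNS_stmt) : SPC_stmt := by
  intro V _ S T X w hC hTS hT
  have hF := hFNS V w X hC.sy
  have hU : ∀ U ⊆ S \ T, f (fun v => X v + dg w T v) w U = f X w (U ∪ T) := by
    intro U hU
    have hd : Disjoint U T := by
      rw [Finset.disjoint_left]
      intro a ha hb
      exact (Finset.mem_sdiff.1 (hU ha)).2 hb
    rw [SPC_f, hF.2.2.2.1 U T hd, hT]
    ring
  refine ⟨⟨hC.sy, fun v hv => hC.root v (hTS hv), hT, fun U hU => hC.iv U (hU.trans hTS),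
    fun U hU => hC.v U (hU.trans hTS)⟩, ⟨hC.sy, ?_, ?_, ?_, ?_⟩⟩
  · intro v hv
    have := hC.root v (Finset.mem_sdiff.1 hv).1
    show 1 ≤ X v + dg w T v
    omega
  · rw [hU _ (Finset.Subset.refl _), Finset.sdiff_union_of_subset hTS]
    exact hC.tot
  · intro U hUS
    rw [hU U hUS]
    exact hC.iv _ (Finset.union_subset (hUS.trans Finset.sdiff_subset) hTS)
  · intro U hUS
    exact hC.v U (hUS.trans Finset.sdiff_subset)

end

end Pool.Agent.KU
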