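import Pool.Agent.helper18.KU.Spec

set_option autoImplicit false

namespace Pool.Agent.KU

open Finset

noncomputable section

theorem S1 (hFNS : FNS_stmt) : S1_stmt := by
  intro V _ S X w hC hcard
  have hF := hFNS V w X hC.sy
  have hsub : ∀ u ∈ S, ∀ v ∈ S, u = v := Finset.card_le_one.1 hcard
  have hX : ∀ v ∈ S, X v = 3 := by
    intro v hv
    have hS : S = {v} := by
      apply Finset.eq_singleton_iff_unique_mem.2
      exact ⟨hv, fun x hx => hsub x hx v hv⟩
    have h1 := hF.2.1 v
    have h2 := hC.tot
    rw [hS] at h2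
    rw [h2] at h1
    omega
  refine ⟨fun _ _ => none, fun _ => 0, ⟨?_, ?_, ?_, ?_, ?_⟩⟩
  · intro v _ k u h
    exact absurd h (by simp)
  · intro v hv
    rw [hX v hv]
    simp [ZMod.card]
  · intro u hu v hv huv
    exact absurd (hsub u hu v hv) huv
  · intro u hu v hv huv
    exact absurd (hsub u hu v hv) huv
  · intro t
    refine ⟨fun _ => 0, fun v _ u h => ?_⟩
    unfold ptr at h
    exact absurd h (by simp)

end

end Pool.Agent.KU
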